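import Pool.Agent.Helper99.SC.Topo

/-!
# Module SC11: paths in the network of swap-closed pages
-/

set_option autoImplicit false

namespace Pool.Agent.Helper44.SC

open Pool.Agent.Helper99.SC

section Abs

variable {A : ℕ → ℕ → Prop} {M : ℕ} {src tgt : ℕ → ℕ}

/-- The data of one page. -/
structure PageOK (A : ℕ → ℕ → Prop) (M : ℕ) (src tgt : ℕ → ℕ) : Prop where
  mem : ∀ y < M, A (src y) (tgt y)
  ex : ∀ s t, A s t → ∃ y < M, src y = s ∧ tgt y = t
  no : ∀ x y z, A x y → ¬ A y z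
  sw : SwapClosed A
  mono : ∀ y y', y ≤ y' → y' < M →
    max (src y) (tgt y) - min (src y) (tgt y) ≤ max (src y') (tgt y') - min (src y') (tgt y')

/-- `x` is strictly inside the span of the bar `e`. -/
def Ins (src tgt : ℕ → ℕ) (e x : ℕ) : Prop := min (src e) (tgt e) < x ∧ x < max (src e) (tgt e)

theorem ne_of (h : PageOK A M src tgt) {y g : ℕ} (hy : y < M) (hg : g < M) : tgt g ≠ src y := by
  intro e
  have h1 := h.mem g hg
  rw [e] at h1
  exact h.no _ _ _ h1 (h.mem y hy)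

theorem ne_src (h : PageOK A M src tgt) {s t g : ℕ} (hs : A s t) (hg : g < M) : tgt g ≠ s := by
  intro e
  have h1 := h.mem g hg
  rw [e] at h1
  exact h.no _ _ _ h1 hs

theorem src_of (h : PageOK A M src tgt) {s g : ℕ} (hg : g < M) (e : src g = s) : A s (tgt g) := by
  rw [← e]; exact h.mem g hg

theorem L1 (h : PageOK A M src tgt) {s x y g : ℕ} (hg : g < M) (hyg : y < g)
    (hx : Ins src tgt y x) (e : src g = x) (h1 : A s (tgt g))
    (h2 : A s (tgt y) ∨ Ins src tgt y s) : A s (tgt y) := by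
  rcases h2 with h2 | h2
  · exact h2
  by_cases e1 : tgt g = tgt y
  · rw [← e1]; exact h1
  have e2 := ne_of h (by omega : y < M) hg
  have sp := h.mono y g hyg.le hg
  refine h.sw _ _ _ _ h1 (h.mem y (by omega)) ?_
  unfold Ins at hx h2
  unfold Cross
  omega

theorem L2 (h : PageOK A M src tgt) {s x y : ℕ} (hy : y < M)
    (hx : Ins src tgt y x) (h1 : A s x) (h2 : A s (tgt y) ∨ ¬ Ins src tgt y s) : A s (tgt y) := by
  rcases h2 with h2 | h2
  · exact h2
  by_cases e1 : src y = s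
  · exact src_of h hy e1
  have e2 := ne_src h h1 hy
  refine h.sw _ _ _ _ h1 (h.mem y hy) ?_
  unfold Ins at hx h2
  unfold Cross
  omega

/-- From the bar `y` into (or across) the trunk of the source `x`. -/
theorem L3 (h : PageOK A M src tgt) {s x y g : ℕ} (hg : g < M) (hyg : y < g)
    (hx : Ins src tgt y x) (e : src g = x) (h1 : A s (tgt y))
    (h2 : A s (tgt g) ∨ ((tgt g < x ∧ src y < x ∨ x < tgt g ∧ x < src y) ↔ Ins src tgt g s)) :
    A s (tgt g) := by
  rcases h2 with h2 | h2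
  · exact h2
  by_cases e1 : tgt g = tgt y
  · rw [e1]; exact h1
  by_cases e3 : src g = s
  · exact src_of h hg e3
  have e2 := ne_of h (by omega : y < M) hg
  have e4 := ne_src h h1 hg
  have e5 := ne_of h hg hg
  have sp := h.mono y g hyg.le hg
  refine h.sw _ _ _ _ h1 (h.mem g hg) ?_
  unfold Ins at hx h2
  unfold Cross
  omega

/-- From the bar `y` into (or across) the trunk of the target `x`. -/
theorem L4 (h : PageOK A M src tgt) {s x y g : ℕ} (hg : g < M) (hyg : y < g)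
    (hx : Ins src tgt y x) (e : tgt g = x) (h1 : A s (tgt y))
    (h2 : A s (tgt g) ∨ ((src g < x ∧ src y < x ∨ x < src g ∧ x < src y) ↔ Ins src tgt g s)) :
    A s (tgt g) := by
  rcases h2 with h2 | h2
  · exact h2
  by_cases e3 : src g = s
  · exact src_of h hg e3
  have e2 := ne_of h hg (by omega : y < M)
  have e4 := ne_src h h1 hg
  have e5 := ne_of h hg hg
  have sp := h.mono y g hyg.le hg
  refine h.sw _ _ _ _ h1 (h.mem g hg) ?_
  unfold Ins at hx h2
  unfold Cross
  omega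

/-- the arc is inside the bar `e` -/
def Inside (src tgt : ℕ → ℕ) (e : ℕ) : NArc → Prop
  | .inl (_, x, y) => min (src e) (tgt e) < x ∧ x < max (src e) (tgt e) ∧ y ≤ e
  | .inr (_, x, y) => min (src e) (tgt e) ≤ x ∧ x + 1 ≤ max (src e) (tgt e) ∧ y < e

/-- the first invariant -/
def I1 (A : ℕ → ℕ → Prop) (M : ℕ) (src tgt : ℕ → ℕ) (s : ℕ) : NArc → Prop
  | .inl (_, x, y) => (∀ y', y ≤ y' → y' < M → src y' = x → A s (tgt y')) ∧
      ((¬ ∃ y' < M, src y' = x) → A s x)
  | .inr (_, _, y) => A s (tgt y)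

/-- the side of an arc -/
def side : NArc → Bool
  | .inl (b, _, _) => b
  | .inr (b, _, _) => b

/-- the second invariant -/
def I2 (A : ℕ → ℕ → Prop) (M : ℕ) (src tgt : ℕ → ℕ) (s : ℕ) (e : NArc) : Prop :=
  ∀ g < M, A s (tgt g) ∨ (Inside src tgt g e ↔ Ins src tgt g s)

end Abs

section Step

variable {A : ℕ → ℕ → Prop} {M : ℕ} {src tgt : ℕ → ℕ} {s x y : ℕ} {b : Bool}

/-- at a node of a source column, coming from below -/
theorem up_bar (h : PageOK A M src tgt) (hx : ∃ y' < M, src y' = x)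
    (hv : ∃ y', y ≤ y' ∧ y' < M ∧ (src y' = x ∨ tgt y' = x))
    (h1 : I1 A M src tgt s (.inl (b, x, y))) (h2 : I2 A M src tgt s (.inl (b, x, y)))
    (hy : y < M) (hs : min (src y) (tgt y) ≤ x ∧ x ≤ max (src y) (tgt y)) : A s (tgt y) := by
  obtain ⟨y₀, hy₀, e₀⟩ := hx
  obtain ⟨y', hy1, hy2, hy3⟩ := hv
  have e1 : tgt y ≠ x := by rw [← e₀]; exact ne_of h hy₀ hy
  have e1' : tgt y' ≠ x := by rw [← e₀]; exact ne_of h hy₀ hy2
  have hy4 : src y' = x := hy3.resolve_right e1'
  by_cases e2 : src y = x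
  · exact h1.1 y le_rfl hy e2
  have hi : Ins src tgt y x := by unfold Ins; omega
  have hlt : y < y' := by
    rcases Nat.lt_or_ge y y' with h' | h'
    · exact h'
    · exfalso
      have : y = y' := by omega
      rw [this] at e2
      exact e2 hy4
  refine L1 h hy2 hlt hi hy4 (h1.1 y' hy1 hy2 hy4) ?_
  rcases h2 y hy with h3 | h3
  · exact Or.inl h3
  · refine Or.inr (h3.1 ?_)
    exact ⟨hi.1, hi.2, le_rfl⟩

/-- at a node of a target column, coming from above -/
theorem down_bar (h : PageOK A M src tgt) (hx : ¬ ∃ y' < M, src y' = x)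
    (h1 : I1 A M src tgt s (.inl (b, x, y + 1))) (h2 : I2 A M src tgt s (.inl (b, x, y + 1)))
    (hy : y < M) (hs : min (src y) (tgt y) ≤ x ∧ x ≤ max (src y) (tgt y)) : A s (tgt y) := by
  have hA : A s x := h1.2 hx
  by_cases e1 : tgt y = x
  · rw [e1]; exact hA
  have e2 : src y ≠ x := fun e => hx ⟨y, hy, e⟩
  have hi : Ins src tgt y x := by unfold Ins; omega
  refine L2 h hy hi hA ?_
  rcases h2 y hy with h3 | h3
  · exact Or.inl h3
  · refine Or.inr (fun h4 => ?_)
    have := (h3.2 h4).2.2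
    omega

theorem step_inv (h : PageOK A M src tgt) {e f : NArc}
    (hup : Prop) (heast : Prop)
    (hUp : hup ↔ ∃ y' < M, src y' = x) (hEast : heast ↔ src y < tgt y)
    (hIn : (hup ∧ e = .inl (b, x, y) ∧ (∃ y', y ≤ y' ∧ y' < M ∧ (src y' = x ∨ tgt y' = x))) ∨
      (¬ hup ∧ e = .inl (b, x, y + 1)) ∨
      (heast ∧ ∃ x', x = x' + 1 ∧ e = .inr (b, x', y) ∧
        y < M ∧ min (src y) (tgt y) ≤ x' ∧ x' < max (src y) (tgt y)) ∨
      (¬ heast ∧ e = .inr (b, x, y) ∧
        y < M ∧ min (src y) (tgt y) ≤ x ∧ x < max (src y) (tgt y)))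
    (hOut : (hup ∧ f = .inl (b, x, y + 1)) ∨
      (¬ hup ∧ f = .inl (b, x, y) ∧ (∃ y', y ≤ y' ∧ y' < M ∧ (src y' = x ∨ tgt y' = x))) ∨
      (heast ∧ f = .inr (b, x, y) ∧
        y < M ∧ min (src y) (tgt y) ≤ x ∧ x < max (src y) (tgt y)) ∨
      (¬ heast ∧ ∃ x', x = x' + 1 ∧ f = .inr (b, x', y) ∧
        y < M ∧ min (src y) (tgt y) ≤ x' ∧ x' < max (src y) (tgt y)))
    (h1 : I1 A M src tgt s e) (h2 : I2 A M src tgt s e) :
    I1 A M src tgt s f ∧ I2 A M src tgt s f := by
  -- the three claims on the arc `e`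
  have claims : (y < M → min (src y) (tgt y) ≤ x ∧ x ≤ max (src y) (tgt y) → A s (tgt y)) ∧
      (∀ g, y < g → g < M → (src g = x ∨ tgt g = x) → A s (tgt g)) ∧
      (∀ g < M, (g < y → ¬ Inside src tgt g e) ∧
        (y < g → src g ≠ x → tgt g ≠ x → (Inside src tgt g e ↔ Ins src tgt g x)) ∧
        (g = y → ¬ (min (src y) (tgt y) ≤ x ∧ x ≤ max (src y) (tgt y)) →
          ¬ Inside src tgt g e)) := by
    rcases hIn with ⟨hu, rfl, hv⟩ | ⟨hu, rfl⟩ | ⟨he, x', rfl, rfl, hy, hs1, hs2⟩ |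
      ⟨he, rfl, hy, hs1, hs2⟩
    · rw [hUp] at hu
      refine ⟨fun hy hs => up_bar h hu hv h1 h2 hy hs, ?_, ?_⟩
      · intro g hyg hg hgx
        rcases hgx with hgx | hgx
        · exact h1.1 g hyg.le hg hgx
        · exfalso
          obtain ⟨y₀, hy₀, e₀⟩ := hu
          exact ne_of h hy₀ hg (hgx.trans e₀.symm)
      · intro g hg
        refine ⟨?_, ?_, ?_⟩
        · rintro hgy ⟨_, _, h3⟩; omega
        · intro hyg e1 e2
          unfold Inside Ins
          constructor
          · rintro ⟨h3, h4, _⟩; exact ⟨h3, h4⟩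
          · rintro ⟨h3, h4⟩; exact ⟨h3, h4, hyg.le⟩
        · rintro rfl h3 ⟨h4, h5, _⟩
          exact h3 ⟨h4.le, h5.le⟩
    · rw [hUp] at hu
      refine ⟨fun hy hs => down_bar h hu h1 h2 hy hs, ?_, ?_⟩
      · intro g hyg hg hgx
        rcases hgx with hgx | hgx
        · exact absurd ⟨g, hg, hgx⟩ hu
        · rw [hgx]; exact h1.2 hu
      · intro g hg
        refine ⟨?_, ?_, ?_⟩
        · rintro hgy ⟨_, _, h3⟩; omega
        · intro hyg e1 e2
          unfold Inside Ins
          constructor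
          · rintro ⟨h3, h4, _⟩; exact ⟨h3, h4⟩
          · rintro ⟨h3, h4⟩; exact ⟨h3, h4, hyg⟩
        · rintro rfl h3 ⟨h4, h5, h6⟩
          omega
    · rw [hEast] at he
      have hA : A s (tgt y) := h1
      refine ⟨fun _ _ => hA, ?_, ?_⟩
      · intro g hyg hg hgx
        by_cases e1 : tgt y = x' + 1
        · rcases hgx with hgx | hgx
          · exact absurd (e1.trans hgx.symm) (ne_of h hg hy)
          · rw [hgx, ← e1]; exact hA
        have hi : Ins src tgt y (x' + 1) := by unfold Ins; omega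
        rcases hgx with hgx | hgx
        · refine L3 h hg hyg hi hgx hA ?_
          rcases h2 g hg with h3 | h3
          · exact Or.inl h3
          · refine Or.inr (Iff.trans ?_ h3)
            have := ne_of h hg hg
            unfold Inside
            dsimp only
            omega
        · refine L4 h hg hyg hi hgx hA ?_
          rcases h2 g hg with h3 | h3
          · exact Or.inl h3
          · refine Or.inr (Iff.trans ?_ h3)
            have := ne_of h hg hg
            unfold Inside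
            dsimp only
            omega
      · intro g hg
        refine ⟨?_, ?_, ?_⟩
        · rintro hgy ⟨_, _, h3⟩; omega
        · intro hyg e1 e2
          unfold Inside Ins
          dsimp only
          omega
        · rintro rfl h3 ⟨h4, h5, h6⟩
          omega
    · rw [hEast] at he
      have hA : A s (tgt y) := h1
      refine ⟨fun _ _ => hA, ?_, ?_⟩
      · intro g hyg hg hgx
        have hne := ne_of h hy hy
        by_cases e1 : tgt y = x
        · rcases hgx with hgx | hgx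
          · exact absurd (e1.trans hgx.symm) (ne_of h hg hy)
          · rw [hgx, ← e1]; exact hA
        have hi : Ins src tgt y x := by unfold Ins; omega
        rcases hgx with hgx | hgx
        · refine L3 h hg hyg hi hgx hA ?_
          rcases h2 g hg with h3 | h3
          · exact Or.inl h3
          · refine Or.inr (Iff.trans ?_ h3)
            have := ne_of h hg hg
            unfold Inside
            dsimp only
            omega
        · refine L4 h hg hyg hi hgx hA ?_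
          rcases h2 g hg with h3 | h3
          · exact Or.inl h3
          · refine Or.inr (Iff.trans ?_ h3)
            have := ne_of h hg hg
            unfold Inside
            dsimp only
            omega
      · intro g hg
        refine ⟨?_, ?_, ?_⟩
        · rintro hgy ⟨_, _, h3⟩; omega
        · intro hyg e1 e2
          unfold Inside Ins
          dsimp only
          omega
        · rintro rfl h3 ⟨h4, h5, h6⟩
          omega
  obtain ⟨P, Q, R⟩ := claims
  -- the invariants for `f`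
  have key : (∀ g < M, (g < y → ¬ Inside src tgt g f) ∧
      (y < g → src g ≠ x → tgt g ≠ x → (Inside src tgt g f ↔ Ins src tgt g x)) ∧
      (g = y → ¬ (min (src y) (tgt y) ≤ x ∧ x ≤ max (src y) (tgt y)) →
        ¬ Inside src tgt g f)) → I2 A M src tgt s f := by
    intro R' g hg
    rcases Nat.lt_trichotomy g y with hgy | hgy | hgy
    · rcases h2 g hg with h3 | h3
      · exact Or.inl h3
      · have a1 := (R g hg).1 hgy
        have a2 := (R' g hg).1 hgy
        exact Or.inr (by rw [← h3]; exact ⟨fun h => absurd h a2, fun h => absurd h a1⟩)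
    · by_cases hs : min (src y) (tgt y) ≤ x ∧ x ≤ max (src y) (tgt y)
      · subst hgy
        exact Or.inl (P hg hs)
      · rcases h2 g hg with h3 | h3
        · exact Or.inl h3
        · have a1 := (R g hg).2.2 hgy hs
          have a2 := (R' g hg).2.2 hgy hs
          exact Or.inr (by rw [← h3]; exact ⟨fun h => absurd h a2, fun h => absurd h a1⟩)
    · by_cases e1 : src g = x
      · exact Or.inl (Q g hgy hg (Or.inl e1))
      by_cases e2 : tgt g = x
      · exact Or.inl (Q g hgy hg (Or.inr e2))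
      rcases h2 g hg with h3 | h3
      · exact Or.inl h3
      · exact Or.inr (((R' g hg).2.1 hgy e1 e2).trans (((R g hg).2.1 hgy e1 e2).symm.trans h3))
  rcases hOut with ⟨hu, rfl⟩ | ⟨hu, rfl, hv⟩ | ⟨he, rfl, hy, hs1, hs2⟩ |
      ⟨he, x', rfl, rfl, hy, hs1, hs2⟩
  · rw [hUp] at hu
    refine ⟨⟨fun y' hy1 hy2 hy3 => Q y' hy1 hy2 (Or.inl hy3), fun h3 => absurd hu h3⟩, key ?_⟩
    intro g hg
    refine ⟨?_, ?_, ?_⟩
    · rintro hgy ⟨_, _, h3⟩; omega
    · intro hyg e1 e2
      unfold Inside Ins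
      constructor
      · rintro ⟨h3, h4, _⟩; exact ⟨h3, h4⟩
      · rintro ⟨h3, h4⟩; exact ⟨h3, h4, hyg⟩
    · rintro rfl h3 ⟨h4, h5, h6⟩
      omega
  · rw [hUp] at hu
    refine ⟨⟨fun y' hy1 hy2 hy3 => absurd ⟨y', hy2, hy3⟩ hu, fun _ => ?_⟩, key ?_⟩
    · obtain ⟨y', hy1, hy2, hy3⟩ := hv
      have hy4 : tgt y' = x := hy3.resolve_left fun e => hu ⟨y', hy2, e⟩
      rcases Nat.lt_or_ge y y' with hlt | hge
      · rw [← hy4]; exact Q y' hlt hy2 (Or.inr hy4)
      · have hyy : y' = y := by omega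
        subst hyy
        have h5 := P hy2 ⟨by omega, by omega⟩
        rw [hy4] at h5
        exact h5
    · intro g hg
      refine ⟨?_, ?_, ?_⟩
      · rintro hgy ⟨_, _, h3⟩; omega
      · intro hyg e1 e2
        unfold Inside Ins
        constructor
        · rintro ⟨h3, h4, _⟩; exact ⟨h3, h4⟩
        · rintro ⟨h3, h4⟩; exact ⟨h3, h4, hyg.le⟩
      · rintro rfl h3 ⟨h4, h5, _⟩
        exact h3 ⟨h4.le, h5.le⟩
  · refine ⟨P hy ⟨hs1, hs2.le⟩, key ?_⟩
    intro g hg
    refine ⟨?_, ?_, ?_⟩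
    · rintro hgy ⟨_, _, h3⟩; omega
    · intro hyg e1 e2
      unfold Inside Ins
      dsimp only
      omega
    · rintro rfl h3 ⟨h4, h5, h6⟩
      omega
  · refine ⟨P hy ⟨by omega, by omega⟩, key ?_⟩
    intro g hg
    refine ⟨?_, ?_, ?_⟩
    · rintro hgy ⟨_, _, h3⟩; omega
    · intro hyg e1 e2
      unfold Inside Ins
      dsimp only
      omega
    · rintro rfl h3 ⟨h4, h5, h6⟩
      omega

end Step

section Main

variable {n : ℕ} {A : Bool → ℕ → ℕ → Prop} {M : Bool → ℕ} {src tgt : Bool → ℕ → ℕ}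

theorem pageOK (hb : ∀ b, Bars (A b) n (M b) (src b) (tgt b))
    (hsw : ∀ b, SwapClosed (A b)) (hno : ∀ b x y z, A b x y → ¬ A b y z) (b : Bool) :
    PageOK (A b) (M b) (src b) (tgt b) where
  mem y hy := ((hb b).iff _ _).2 ⟨y, hy, rfl, rfl⟩
  ex _ _ h := ((hb b).iff _ _).1 h
  no := hno b
  sw := hsw b
  mono := (hb b).mono

theorem step_bar (hlt : ∀ b, ∀ y < M b, src b y < n ∧ tgt b y < n)
    (h : ∀ b, PageOK (A b) (M b) (src b) (tgt b)) {s : ℕ} {b : Bool} {e f : NArc}
    (hstep : (barNet n M src tgt hlt).Step e f) (hs : side e = b)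
    (h1 : I1 (A b) (M b) (src b) (tgt b) s e) (h2 : I2 (A b) (M b) (src b) (tgt b) s e) :
    side f = b ∧ I1 (A b) (M b) (src b) (tgt b) s f ∧ I2 (A b) (M b) (src b) (tgt b) s f := by
  obtain ⟨b', x, y, hIn, hOut⟩ := hstep
  have hbb : b' = b := by
    rcases hIn with ⟨_, ⟨_, rfl⟩ | ⟨_, rfl⟩ | ⟨_, x', _, rfl⟩ | ⟨_, rfl⟩⟩ <;> exact hs
  subst hbb
  refine ⟨?_, step_inv (h b') (x := x) (y := y) (b := b') ((barNet n M src tgt hlt).up b' x)
    ((barNet n M src tgt hlt).east b' y) Iff.rfl Iff.rfl ?_ ?_ h1 h2⟩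
  · rcases hOut with ⟨_, ⟨_, rfl⟩ | ⟨_, rfl⟩ | ⟨_, rfl⟩ | ⟨_, x', _, rfl⟩⟩ <;> rfl
  · rcases hIn with ⟨hh, ⟨a1, rfl⟩ | ⟨a1, rfl⟩ | ⟨a1, x', rfl, rfl⟩ | ⟨a1, rfl⟩⟩
    · exact Or.inl ⟨a1, rfl, hh⟩
    · exact Or.inr (Or.inl ⟨a1, rfl⟩)
    · exact Or.inr (Or.inr (Or.inl ⟨a1, x', rfl, rfl, hh⟩))
    · exact Or.inr (Or.inr (Or.inr ⟨a1, rfl, hh⟩))
  · rcases hOut with ⟨hh, ⟨a1, rfl⟩ | ⟨a1, rfl⟩ | ⟨a1, rfl⟩ | ⟨a1, x', rfl, rfl⟩⟩
    · exact Or.inl ⟨a1, rfl⟩
    · exact Or.inr (Or.inl ⟨a1, rfl, hh⟩)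
    · exact Or.inr (Or.inr (Or.inl ⟨a1, rfl, hh⟩))
    · exact Or.inr (Or.inr (Or.inr ⟨a1, x', rfl, rfl, hh⟩))

theorem reach_only (hlt : ∀ b, ∀ y < M b, src b y < n ∧ tgt b y < n)
    (h : ∀ b, PageOK (A b) (M b) (src b) (tgt b)) {s t : ℕ}
    (hr : (barNet n M src tgt hlt).Reach s t) : ∃ b, A b s t := by
  obtain ⟨b, hus, hvs, hut, hvt, hpath⟩ := hr
  refine ⟨b, ?_⟩
  have inv : ∀ f, Relation.ReflTransGen (barNet n M src tgt hlt).Step (.inl (b, s, 0)) f →
      side f = b ∧ I1 (A b) (M b) (src b) (tgt b) s f ∧ I2 (A b) (M b) (src b) (tgt b) s f := by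
    intro f hf
    induction hf with
    | refl =>
      refine ⟨rfl, ⟨fun y' _ hy' he => src_of (h b) hy' he, fun hn => absurd hus hn⟩, ?_⟩
      intro g hg
      refine Or.inr ⟨fun h3 => ⟨h3.1, h3.2.1⟩, fun h3 => ⟨h3.1, h3.2, Nat.zero_le _⟩⟩
    | tail _ hst ih => exact step_bar hlt h hst ih.1 ih.2.1 ih.2.2
  exact (inv _ hpath).2.1.2 hut

section InOut

variable {N : Net} {b : Bool} {x y x' : ℕ}

theorem inU (h : N.up b x) (h' : N.ve b x y) : N.In b x y (.inl (b, x, y)) :=
  ⟨h', Or.inl ⟨h, rfl⟩⟩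

theorem inD (h : ¬ N.up b x) (h' : N.ve b x (y + 1)) : N.In b x y (.inl (b, x, y + 1)) :=
  ⟨h', Or.inr (Or.inl ⟨h, rfl⟩)⟩

theorem inE (h : N.east b y) (e : x = x' + 1) (h' : N.he b x' y) : N.In b x y (.inr (b, x', y)) :=
  ⟨h', Or.inr (Or.inr (Or.inl ⟨h, x', e, rfl⟩))⟩

theorem inW (h : ¬ N.east b y) (h' : N.he b x y) : N.In b x y (.inr (b, x, y)) :=
  ⟨h', Or.inr (Or.inr (Or.inr ⟨h, rfl⟩))⟩

theorem outU (h : N.up b x) (h' : N.ve b x (y + 1)) : N.Out b x y (.inl (b, x, y + 1)) :=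
  ⟨h', Or.inl ⟨h, rfl⟩⟩

theorem outD (h : ¬ N.up b x) (h' : N.ve b x y) : N.Out b x y (.inl (b, x, y)) :=
  ⟨h', Or.inr (Or.inl ⟨h, rfl⟩)⟩

theorem outE (h : N.east b y) (h' : N.he b x y) : N.Out b x y (.inr (b, x, y)) :=
  ⟨h', Or.inr (Or.inr (Or.inl ⟨h, rfl⟩))⟩

theorem outW (h : ¬ N.east b y) (e : x = x' + 1) (h' : N.he b x' y) :
    N.Out b x y (.inr (b, x', y)) :=
  ⟨h', Or.inr (Or.inr (Or.inr ⟨h, x', e, rfl⟩))⟩

end InOut

theorem reach_if (hlt : ∀ b, ∀ y < M b, src b y < n ∧ tgt b y < n)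
    (h : ∀ b, PageOK (A b) (M b) (src b) (tgt b)) {s t : ℕ} {b : Bool} (hA : A b s t) :
    (barNet n M src tgt hlt).Reach s t := by
  obtain ⟨y, hy, rfl, rfl⟩ := (h b).ex _ _ hA
  have hne := ne_of (h b) hy hy
  set N := barNet n M src tgt hlt with hN
  have hup : N.up b (src b y) := ⟨y, hy, rfl⟩
  have hdn : ¬ N.up b (tgt b y) := by
    rintro ⟨y', hy', e⟩
    exact ne_of (h b) hy' hy e.symm
  have hvs : ∀ i ≤ y, N.ve b (src b y) i := fun i hi => ⟨y, hi, hy, Or.inl rfl⟩
  have hvt : ∀ i ≤ y, N.ve b (tgt b y) i := fun i hi => ⟨y, hi, hy, Or.inr rfl⟩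
  have p1 : ∀ i ≤ y, Relation.ReflTransGen N.Step (.inl (b, src b y, 0))
      (.inl (b, src b y, i)) := by
    intro i
    induction i with
    | zero => intro _; exact Relation.ReflTransGen.refl
    | succ i ih =>
      intro hi
      exact (ih (by omega)).tail ⟨b, src b y, i, inU hup (hvs i (by omega)),
        outU hup (hvs (i + 1) hi)⟩
  have p3 : ∀ i ≤ y, Relation.ReflTransGen N.Step (.inl (b, tgt b y, i))
      (.inl (b, tgt b y, 0)) := by
    intro i
    induction i with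
    | zero => intro _; exact Relation.ReflTransGen.refl
    | succ i ih =>
      intro hi
      exact Relation.ReflTransGen.head ⟨b, tgt b y, i, inD hdn (hvt (i + 1) hi),
        outD hdn (hvt i (by omega))⟩ (ih (by omega))
  have p2 : Relation.ReflTransGen N.Step (.inl (b, src b y, y)) (.inl (b, tgt b y, y)) := by
    rcases Nat.lt_or_ge (src b y) (tgt b y) with hlt' | hge
    · have he : N.east b y := hlt'
      have hhe : ∀ x, src b y ≤ x → x < tgt b y → N.he b x y := by
        intro x hx1 hx2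
        exact ⟨hy, by omega, by omega⟩
      have q : ∀ k, src b y + k < tgt b y →
          Relation.ReflTransGen N.Step (.inl (b, src b y, y)) (.inr (b, src b y + k, y)) := by
        intro k
        induction k with
        | zero =>
          intro hk
          exact Relation.ReflTransGen.single ⟨b, src b y, y, inU hup (hvs y le_rfl),
            outE he (hhe _ (by omega) (by omega))⟩
        | succ k ih =>
          intro hk
          exact (ih (by omega)).tail ⟨b, src b y + k + 1, y,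
            inE he rfl (hhe _ (by omega) (by omega)), outE he (hhe _ (by omega) (by omega))⟩
      obtain ⟨k, hk⟩ : ∃ k, tgt b y = src b y + k + 1 := ⟨tgt b y - src b y - 1, by omega⟩
      exact (q k (by omega)).tail ⟨b, tgt b y, y,
        inE he hk (hhe _ (by omega) (by omega)), outD hdn (hvt y le_rfl)⟩
    · have he : ¬ N.east b y := by
        show ¬ (src b y < tgt b y)
        omega
      have hhe : ∀ x, tgt b y ≤ x → x < src b y → N.he b x y := by
        intro x hx1 hx2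
        exact ⟨hy, by omega, by omega⟩
      have q : ∀ k, tgt b y + k + 1 ≤ src b y →
          Relation.ReflTransGen N.Step (.inr (b, tgt b y + k, y)) (.inl (b, tgt b y, y)) := by
        intro k
        induction k with
        | zero =>
          intro hk
          exact Relation.ReflTransGen.single ⟨b, tgt b y, y,
            inW he (hhe _ (by omega) (by omega)), outD hdn (hvt y le_rfl)⟩
        | succ k ih =>
          intro hk
          exact Relation.ReflTransGen.head ⟨b, tgt b y + k + 1, y,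
            inW he (hhe _ (by omega) (by omega)),
            outW he rfl (hhe _ (by omega) (by omega))⟩ (ih (by omega))
      obtain ⟨k, hk⟩ : ∃ k, src b y = tgt b y + k + 1 := ⟨src b y - tgt b y - 1, by omega⟩
      exact Relation.ReflTransGen.head ⟨b, src b y, y, inU hup (hvs y le_rfl),
        outW he hk (hhe (tgt b y + k) (by omega) (by omega))⟩ (q k (by omega))
  exact ⟨b, hup, hvs 0 (Nat.zero_le _), hdn, hvt 0 (Nat.zero_le _),
    ((p1 y le_rfl).trans p2).trans (p3 y le_rfl)⟩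

theorem balanced (hlt : ∀ b, ∀ y < M b, src b y < n ∧ tgt b y < n)
    (h : ∀ b, PageOK (A b) (M b) (src b) (tgt b)) : (barNet n M src tgt hlt).Balanced := by
  intro b x y
  have hx : ∀ y₁ < M b, ∀ y₂ < M b, src b y₁ = x → tgt b y₂ ≠ x := by
    intro y₁ h₁ y₂ h₂ e e'
    exact ne_of (h b) h₁ h₂ (e'.trans e.symm)
  have hne : ∀ y₁ < M b, tgt b y₁ ≠ src b y₁ := fun y₁ h₁ => ne_of (h b) h₁ h₁
  set N := barNet n M src tgt hlt with hN
  have ve' : ∀ x y y', y ≤ y' → y' < M b → (src b y' = x ∨ tgt b y' = x) → N.ve b x y :=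
    fun x y y' h1 h2 h3 => ⟨y', h1, h2, h3⟩
  have he' : ∀ x, y < M b → min (src b y) (tgt b y) ≤ x → x < max (src b y) (tgt b y) →
      N.he b x y := fun x h1 h2 h3 => ⟨h1, h2, h3⟩
  constructor
  · rintro ⟨e, hh, ⟨a1, rfl⟩ | ⟨a1, rfl⟩ | ⟨a1, x', rfl, rfl⟩ | ⟨a1, rfl⟩⟩
    · obtain ⟨y', hy1, hy2, hy3⟩ := hh
      have a1' := a1
      obtain ⟨y₀, hy₀, e₀⟩ := a1
      have hy4 : src b y' = x := hy3.resolve_right (hx y₀ hy₀ y' hy2 e₀)
      rcases Nat.lt_or_ge y y' with hlt' | hge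
      · exact ⟨_, outU a1' (ve' _ _ y' hlt' hy2 (Or.inl hy4))⟩
      · have hyy : y' = y := by omega
        subst hyy
        have := hne y' hy2
        rcases Nat.lt_or_ge (src b y') (tgt b y') with h5 | h5
        · exact ⟨_, outE (N := N) (x := x) h5 (he' _ hy2 (by omega) (by omega))⟩
        · obtain ⟨x', hx'⟩ : ∃ x', x = x' + 1 := ⟨x - 1, by omega⟩
          refine ⟨_, outW (N := N) ?_ hx' (he' _ hy2 (by omega) (by omega))⟩
          show ¬ (src b y' < tgt b y')
          omega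
    · obtain ⟨y', hy1, hy2, hy3⟩ := hh
      exact ⟨_, outD a1 (ve' _ _ y' (by omega) hy2 hy3)⟩
    · obtain ⟨hy, h1, h2⟩ := hh
      have a2 : src b y < tgt b y := a1
      by_cases e1 : tgt b y = x' + 1
      · refine ⟨_, outD (N := N) ?_ (ve' _ _ y le_rfl hy (Or.inr e1))⟩
        rintro ⟨y', hy', e'⟩
        exact hx y' hy' y hy e' e1
      · exact ⟨_, outE a1 (he' _ hy (by omega) (by omega))⟩
    · obtain ⟨hy, h1, h2⟩ := hh
      have a2 : ¬ (src b y < tgt b y) := a1
      by_cases e1 : tgt b y = x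
      · refine ⟨_, outD (N := N) ?_ (ve' _ _ y le_rfl hy (Or.inr e1))⟩
        rintro ⟨y', hy', e'⟩
        exact hx y' hy' y hy e' e1
      · obtain ⟨x', hx'⟩ : ∃ x', x = x' + 1 := ⟨x - 1, by omega⟩
        exact ⟨_, outW a1 hx' (he' _ hy (by omega) (by omega))⟩
  · rintro ⟨e, hh, ⟨a1, rfl⟩ | ⟨a1, rfl⟩ | ⟨a1, rfl⟩ | ⟨a1, x', rfl, rfl⟩⟩
    · obtain ⟨y', hy1, hy2, hy3⟩ := hh
      exact ⟨_, inU a1 (ve' _ _ y' (by omega) hy2 hy3)⟩
    · obtain ⟨y', hy1, hy2, hy3⟩ := hh
      have hy4 : tgt b y' = x := hy3.resolve_left fun e => a1 ⟨y', hy2, e⟩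
      rcases Nat.lt_or_ge y y' with hlt' | hge
      · exact ⟨_, inD a1 (ve' _ _ y' hlt' hy2 (Or.inr hy4))⟩
      · have hyy : y' = y := by omega
        subst hyy
        have := hne y' hy2
        rcases Nat.lt_or_ge (src b y') (tgt b y') with h5 | h5
        · obtain ⟨x', hx'⟩ : ∃ x', x = x' + 1 := ⟨x - 1, by omega⟩
          exact ⟨_, inE (N := N) h5 hx' (he' _ hy2 (by omega) (by omega))⟩
        · refine ⟨_, inW (N := N) (x := x) ?_ (he' _ hy2 (by omega) (by omega))⟩
          show ¬ (src b y' < tgt b y')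
          omega
    · obtain ⟨hy, h1, h2⟩ := hh
      have a2 : src b y < tgt b y := a1
      by_cases e1 : src b y = x
      · exact ⟨_, inU (N := N) ⟨y, hy, e1⟩ (ve' _ _ y le_rfl hy (Or.inl e1))⟩
      · obtain ⟨x', hx'⟩ : ∃ x', x = x' + 1 := ⟨x - 1, by omega⟩
        exact ⟨_, inE a1 hx' (he' _ hy (by omega) (by omega))⟩
    · obtain ⟨hy, h1, h2⟩ := hh
      have a2 : ¬ (src b y < tgt b y) := a1
      by_cases e1 : src b y = x' + 1
      · exact ⟨_, inU (N := N) ⟨y, hy, e1⟩ (ve' _ _ y le_rfl hy (Or.inl e1))⟩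
      · exact ⟨_, inW a1 (he' _ hy (by omega) (by omega))⟩

end Main

/-- MODULE SC11. -/
theorem sc_reach : M_reach := by
  intro n A M src tgt hb hsw hno
  have h := pageOK hb hsw hno
  refine ⟨balanced _ h, fun s t => ⟨reach_only _ h, ?_⟩⟩
  rintro ⟨b, hA⟩
  exact reach_if _ h hA

end Pool.Agent.Helper44.SC
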